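import Mathlib

/-!
# A plane and a line meeting in a point

`R` is the subring of `k⟦x, y⟧ × k⟦z⟧` of pairs with equal constant terms.
-/

set_option autoImplicit false

namespace Pool.Agent.Y234.PL

open MvPowerSeries

/-- the plane -/
abbrev A := MvPowerSeries (Fin 2) ℚ
/-- the line -/
abbrev B := MvPowerSeries (Fin 1) ℚ

/-- constant term on the plane -/
noncomputable abbrev cA : A × B →+* ℚ := (constantCoeff (σ := Fin 2) (R := ℚ)).comp (RingHom.fst A B)
/-- constant term on the line -/
noncomputable abbrev cB : A × B →+* ℚ := (constantCoeff (σ := Fin 1) (R := ℚ)).comp (RingHom.snd A B)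

/-- the ring of pairs with equal constant terms -/
noncomputable def R0 : Subring (A × B) := RingHom.eqLocus cA cB

/-- the ring of pairs with equal constant terms -/
abbrev R : Type := R0

lemma mem_R0 (p : A × B) : p ∈ R0 ↔ constantCoeff p.1 = constantCoeff p.2 := Iff.rfl

lemma eqc (p : R) : constantCoeff p.1.1 = constantCoeff p.1.2 := p.2

/-- projection to the plane -/
noncomputable def prA : R →+* A := (RingHom.fst A B).comp R0.subtype
/-- projection to the line -/
noncomputable def prB : R →+* B := (RingHom.snd A B).comp R0.subtype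
/-- constant term -/
noncomputable def ct : R →+* ℚ := (constantCoeff (σ := Fin 2) (R := ℚ)).comp prA

lemma prA_apply (p : R) : prA p = p.1.1 := rfl
lemma prB_apply (p : R) : prB p = p.1.2 := rfl
lemma ct_apply (p : R) : ct p = constantCoeff p.1.1 := rfl
lemma ct_apply' (p : R) : ct p = constantCoeff p.1.2 := eqc p

/-- make an element -/
noncomputable def mk' (a : A) (b : B) (h : constantCoeff a = constantCoeff b) : R := ⟨(a, b), h⟩

lemma prA_surjective : Function.Surjective prA := by
  intro a
  exact ⟨mk' a (C (constantCoeff a)) (by simp), rfl⟩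

lemma prB_surjective : Function.Surjective prB := by
  intro b
  exact ⟨mk' (C (constantCoeff b)) b (by simp), rfl⟩

lemma ct_surjective : Function.Surjective ct := by
  intro c
  exact ⟨mk' (C c) (C c) (by simp), by simp [ct_apply, mk']⟩

lemma ext' {p q : R} (h1 : prA p = prA q) (h2 : prB p = prB q) : p = q :=
  Subtype.ext (Prod.ext h1 h2)

lemma isUnit_iff (p : R) : IsUnit p ↔ ct p ≠ 0 := by
  constructor
  · intro h
    exact (h.map ct).ne_zero
  · intro h
    have h1 : constantCoeff p.1.1 ≠ 0 := h
    have h2 : constantCoeff p.1.2 ≠ 0 := by rw [← eqc]; exact h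
    refine IsUnit.of_mul_eq_one (mk' (p.1.1)⁻¹ (p.1.2)⁻¹ ?_) ?_
    · rw [constantCoeff_inv, constantCoeff_inv, eqc]
    · apply ext'
      · show p.1.1 * (p.1.1)⁻¹ = 1
        exact MvPowerSeries.mul_inv_cancel _ h1
      · show p.1.2 * (p.1.2)⁻¹ = 1
        exact MvPowerSeries.mul_inv_cancel _ h2

instance : Nontrivial R := ct.domain_nontrivial

instance : IsLocalRing R := by
  refine IsLocalRing.of_nonunits_add ?_
  intro a b ha hb
  rw [mem_nonunits_iff, isUnit_iff, not_not] at ha hb ⊢
  rw [map_add, ha, hb, add_zero]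

lemma mem_max (p : R) : p ∈ IsLocalRing.maximalIdeal R ↔ ct p = 0 := by
  rw [IsLocalRing.mem_maximalIdeal, mem_nonunits_iff, isUnit_iff, not_not]

lemma noeth_of_surj {R' S M : Type*} [CommRing R'] [CommRing S] [Algebra R' S] [AddCommGroup M]
    [Module R' M] [Module S M] [IsScalarTower R' S M]
    (h : Function.Surjective (algebraMap R' S)) [IsNoetherian S M] : IsNoetherian R' M := by
  have : RingHomSurjective (algebraMap R' S) := ⟨h⟩
  let f : M →ₛₗ[algebraMap R' S] M := ⟨AddHom.id M, by simp⟩
  have h2 : WellFoundedGT (Submodule S M) := inferInstance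
  have e := Submodule.orderIsoMapComapOfBijective f Function.bijective_id
  exact isNoetherian_iff'.2 e.toOrderEmbedding.wellFoundedGT

instance : IsNoetherianRing R := by
  let _ : Algebra R A := prA.toAlgebra
  let _ : Algebra R B := prB.toAlgebra
  have hA : IsNoetherian R A := noeth_of_surj (R' := R) (S := A) (M := A) prA_surjective
  have hB : IsNoetherian R B := noeth_of_surj (R' := R) (S := B) (M := B) prB_surjective
  let f : R →ₗ[R] A × B :=
    { toFun := fun p => (prA p, prB p)
      map_add' := fun p q => by simp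
      map_smul' := fun p q => by
        rw [smul_eq_mul, map_mul, map_mul]; rfl }
  refine isNoetherian_of_injective f ?_
  intro p q h
  exact ext' (congrArg Prod.fst h) (congrArg Prod.snd h)


/-- the pairs of order at least `n` -/
noncomputable def J (n : ℕ) : Ideal R where
  carrier := {p | (n : ℕ∞) ≤ (prA p).order ∧ (n : ℕ∞) ≤ (prB p).order}
  add_mem' := by
    intro p q hp hq
    exact ⟨by rw [map_add]; exact le_trans (le_min hp.1 hq.1) (min_order_le_add),
      by rw [map_add]; exact le_trans (le_min hp.2 hq.2) (min_order_le_add)⟩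
  zero_mem' := by
    constructor
    · rw [map_zero, order_zero]; exact le_top
    · rw [map_zero, order_zero]; exact le_top
  smul_mem' := by
    intro c p hp
    constructor
    · rw [smul_eq_mul, map_mul]
      exact le_trans hp.1 (le_trans le_add_self le_order_mul)
    · rw [smul_eq_mul, map_mul]
      exact le_trans hp.2 (le_trans le_add_self le_order_mul)

lemma mem_J {n : ℕ} {p : R} :
    p ∈ J n ↔ (n : ℕ∞) ≤ (prA p).order ∧ (n : ℕ∞) ≤ (prB p).order := Iff.rfl

lemma J_zero : J 0 = ⊤ := by
  rw [Ideal.eq_top_iff_one, mem_J]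
  exact ⟨by simp, by simp⟩

lemma J_one : J 1 = IsLocalRing.maximalIdeal R := by
  ext p
  rw [mem_J, mem_max, Nat.cast_one, one_le_order_iff_constCoeff_eq_zero,
    one_le_order_iff_constCoeff_eq_zero]
  exact ⟨fun h => h.1, fun h => ⟨h, (ct_apply' p).symm.trans h⟩⟩

lemma J_mul {m n : ℕ} {p q : R} (hp : p ∈ J m) (hq : q ∈ J n) : p * q ∈ J (m + n) := by
  rw [mem_J] at *
  rw [map_mul, map_mul, Nat.cast_add]
  exact ⟨le_trans (add_le_add hp.1 hq.1) le_order_mul,
    le_trans (add_le_add hp.2 hq.2) le_order_mul⟩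

lemma J_anti {m n : ℕ} (h : m ≤ n) : J n ≤ J m := by
  intro p hp
  have h1 : (m : ℕ∞) ≤ n := by exact_mod_cast h
  exact ⟨h1.trans hp.1, h1.trans hp.2⟩

/-- the part of a power series divisible by the variable `i`, divided by it -/
noncomputable def cmp {σ : Type} [DecidableEq σ] (ix : (σ →₀ ℕ) → σ) (a : MvPowerSeries σ ℚ)
    (i : σ) : MvPowerSeries σ ℚ :=
  fun d => if ix (d + Finsupp.single i 1) = i then coeff (d + Finsupp.single i 1) a else 0

lemma coeff_cmp {σ : Type} [DecidableEq σ] (ix : (σ →₀ ℕ) → σ) (a : MvPowerSeries σ ℚ)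
    (i : σ) (d : σ →₀ ℕ) : coeff d (cmp ix a i) =
      if ix (d + Finsupp.single i 1) = i then coeff (d + Finsupp.single i 1) a else 0 := rfl

/-- decomposition of a power series along the variables -/
lemma decomp {σ : Type} [Fintype σ] [DecidableEq σ] [Nonempty σ] (n : ℕ) (a : MvPowerSeries σ ℚ)
    (ha : ((n + 1 : ℕ) : ℕ∞) ≤ a.order) :
    ∃ c : σ → MvPowerSeries σ ℚ, (∀ i, (n : ℕ∞) ≤ (c i).order) ∧ a = ∑ i, X i * c i := by
  classical
  have hex : ∀ d : σ →₀ ℕ, d ≠ 0 → ∃ i, d i ≠ 0 := fun d hd => by
    by_contra h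
    push Not at h
    exact hd (Finsupp.ext h)
  choose! ix hix using hex
  refine ⟨cmp ix a, ?_, ?_⟩
  · intro i
    apply nat_le_order
    intro d hd
    rw [coeff_cmp]
    split_ifs
    · apply coeff_of_lt_order
      refine lt_of_lt_of_le ?_ ha
      rw [map_add, Finsupp.degree_single]
      exact_mod_cast Nat.add_lt_add_right hd 1
    · rfl
  · ext d
    rw [map_sum]
    by_cases hd : d = 0
    · subst hd
      rw [Finset.sum_eq_zero]
      · apply coeff_of_lt_order
        refine lt_of_lt_of_le ?_ ha
        rw [map_zero]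
        exact_mod_cast Nat.succ_pos n
      · intro i _
        rw [coeff_zero_X_mul]
    · have key : ∀ i, coeff d (X i * cmp ix a i) = if ix d = i then coeff d a else 0 := by
        intro i
        rw [X_def, coeff_monomial_mul]
        by_cases h1 : Finsupp.single i 1 ≤ d
        · rw [if_pos h1, one_mul, coeff_cmp, tsub_add_cancel_of_le h1]
        · rw [if_neg h1]
          by_cases h2 : ix d = i
          · exfalso
            apply h1
            rw [Finsupp.single_le_iff, ← h2]
            exact Nat.one_le_iff_ne_zero.mpr (hix d hd)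
          · rw [if_neg h2]
      rw [Finset.sum_congr rfl (fun i _ => key i)]
      simp

lemma mem_pow_of_mem_J (n : ℕ) : ∀ p : R, p ∈ J n → p ∈ IsLocalRing.maximalIdeal R ^ n := by
  induction n with
  | zero => intro p _; simp
  | succ n ih =>
    intro p hp
    obtain ⟨c, hc, hc2⟩ := decomp n (prA p) hp.1
    obtain ⟨d, hd, hd2⟩ := decomp n (prB p) hp.2
    have hX : ∀ i : Fin 2, (constantCoeff (X i : A)) = constantCoeff (0 : B) := by
      intro i; simp
    have hY : ∀ i : Fin 1, (constantCoeff (0 : A)) = constantCoeff (X i : B) := by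
      intro i; simp
    let cc : Fin 2 → R := fun i => mk' (c i) (C (constantCoeff (c i))) (by simp)
    let dd : Fin 1 → R := fun i => mk' (C (constantCoeff (d i))) (d i) (by simp)
    have h1 : p = ∑ i, mk' (X i) 0 (hX i) * cc i + ∑ i, mk' 0 (X i) (hY i) * dd i := by
      apply ext'
      · rw [map_add, map_sum, map_sum]
        rw [show ∑ i, prA (mk' 0 (X i) (hY i) * dd i) = 0 from
          Finset.sum_eq_zero (fun i _ => by rw [map_mul]; exact zero_mul _), add_zero]
        rw [hc2]
        exact Finset.sum_congr rfl (fun i _ => by rw [map_mul]; rfl)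
      · rw [map_add, map_sum, map_sum]
        rw [show ∑ i, prB (mk' (X i) 0 (hX i) * cc i) = 0 from
          Finset.sum_eq_zero (fun i _ => by rw [map_mul]; exact zero_mul _), zero_add]
        rw [hd2]
        exact Finset.sum_congr rfl (fun i _ => by rw [map_mul]; rfl)
    have hC : ∀ {σ τ : Type} (u : MvPowerSeries σ ℚ), (n : ℕ∞) ≤ u.order →
        (n : ℕ∞) ≤ (C (constantCoeff u) : MvPowerSeries τ ℚ).order := by
      intro σ τ u hu
      rcases Nat.eq_zero_or_pos n with h | h
      · subst h; simp
      · have h2 : constantCoeff u = 0 := by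
          rw [← one_le_order_iff_constCoeff_eq_zero]
          exact le_trans (by exact_mod_cast h) hu
        rw [h2, map_zero, order_zero]
        exact le_top
    rw [h1, pow_succ']
    refine Ideal.add_mem _ (Ideal.sum_mem _ fun i _ => ?_) (Ideal.sum_mem _ fun i _ => ?_)
    · refine Ideal.mul_mem_mul ?_ (ih _ ⟨hc i, hC _ (hc i)⟩)
      rw [mem_max]
      show constantCoeff (X i) = 0
      simp
    · refine Ideal.mul_mem_mul ?_ (ih _ ⟨hC _ (hd i), hd i⟩)
      rw [mem_max]
      show constantCoeff (0 : A) = 0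
      simp

lemma max_pow (n : ℕ) : IsLocalRing.maximalIdeal R ^ n = J n := by
  apply le_antisymm
  · induction n with
    | zero => rw [J_zero]; exact le_top
    | succ n ih =>
      rw [pow_succ, Ideal.mul_le]
      intro r hr s hs
      rw [← J_one] at hs
      exact J_mul (ih hr) hs
  · intro p hp
    exact mem_pow_of_mem_J n p hp


lemma order_pow' {σ : Type} (a : MvPowerSeries σ ℚ) (k : ℕ) : (a ^ k).order = k * a.order := by
  induction k with
  | zero =>
    rw [pow_zero, Nat.cast_zero, zero_mul]
    by_contra h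
    rw [← Ne, order_ne_zero_iff_constCoeff_eq_zero] at h
    simp at h
  | succ k ih => rw [pow_succ, order_mul, ih, Nat.cast_add, Nat.cast_one, add_mul, one_mul]

lemma le_of_mul_le' {k n : ℕ} (hk : 0 < k) {x : ℕ∞} (h : ((k * n : ℕ) : ℕ∞) ≤ k * x) :
    (n : ℕ∞) ≤ x := by
  induction x using ENat.recTopCoe with
  | top => exact le_top
  | coe x =>
    have h1 : k * n ≤ k * x := by exact_mod_cast h
    exact_mod_cast Nat.le_of_mul_le_mul_left h1 hk

lemma J_pow {k n : ℕ} (hk : 0 < k) {p : R} (h : p ^ k ∈ J (k * n)) : p ∈ J n := by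
  rw [mem_J, map_pow, map_pow, order_pow', order_pow'] at h
  exact ⟨le_of_mul_le' hk h.1, le_of_mul_le' hk h.2⟩

lemma isReduced_completion : IsReduced (AdicCompletion (IsLocalRing.maximalIdeal R) R) := by
  refine ⟨fun f => ?_⟩
  rintro ⟨k, hk⟩
  have hk2 : f ^ (k + 1) = 0 := by rw [pow_succ, hk, zero_mul]
  clear hk
  induction f using AdicCompletion.induction_on with
  | _ a =>
  apply AdicCompletion.ext_evalₐ
  intro n
  have h1 := congrArg (AdicCompletion.evalₐ (IsLocalRing.maximalIdeal R) ((k + 1) * n)) hk2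
  rw [map_pow, map_zero, AdicCompletion.evalₐ_mk, ← map_pow, Ideal.Quotient.eq_zero_iff_mem,
    max_pow] at h1
  have h2 := J_pow (Nat.succ_pos k) h1
  rw [AdicCompletion.evalₐ_mk, map_zero, ← AdicCompletion.Ideal.mk_eq_mk _
    (Nat.le_mul_of_pos_left n (Nat.succ_pos k)), Ideal.Quotient.eq_zero_iff_mem, max_pow]
  exact h2

lemma two_le_dim : 2 ≤ ringKrullDim R := by
  have h1 : ringKrullDim A ≤ ringKrullDim R := ringKrullDim_le_of_surjective prA prA_surjective
  have h2 : ringKrullDim A = ringKrullDim (PowerSeries (MvPowerSeries (Fin 1) ℚ)) :=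
    ringKrullDim_eq_of_ringEquiv (finSuccEquiv ℚ 1).toRingEquiv
  have h3 : ringKrullDim (MvPowerSeries (Fin 1) ℚ) =
      ringKrullDim (PowerSeries (MvPowerSeries (Fin 0) ℚ)) :=
    ringKrullDim_eq_of_ringEquiv (finSuccEquiv ℚ 0).toRingEquiv
  have h4 : ringKrullDim (MvPowerSeries (Fin 0) ℚ) = ringKrullDim ℚ :=
    ringKrullDim_eq_of_ringEquiv (isEmptyEquiv (σ := Fin 0) (R := ℚ)).toRingEquiv
  rw [ringKrullDim_eq_zero_of_field] at h4
  have h5 := ringKrullDim_succ_le_ringKrullDim_powerseries (R := MvPowerSeries (Fin 0) ℚ)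
  have h6 := ringKrullDim_succ_le_ringKrullDim_powerseries (R := MvPowerSeries (Fin 1) ℚ)
  rw [h4, zero_add, ← h3] at h5
  rw [← h2] at h6
  refine le_trans ?_ h1
  refine le_trans ?_ h6
  calc (2 : WithBot ℕ∞) = 1 + 1 := by norm_num
    _ ≤ _ := add_le_add_left h5 1

lemma dim_le_two : ringKrullDim R ≤ 2 := by
  classical
  rw [← IsLocalRing.maximalIdeal_height_eq_ringKrullDim]
  have hX : ∀ i : Fin 2, (constantCoeff (X i : A)) = constantCoeff (0 : B) := by
    intro i; simp
  have hY : (constantCoeff (0 : A)) = constantCoeff (X 0 : B) := by simp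
  have hZ : (constantCoeff (X 0 : A)) = constantCoeff (X 0 : B) := by simp
  let s : Finset R := {mk' (X 0) (X 0) hZ, mk' (X 1) 0 (hX 1)}
  have h1 : IsLocalRing.maximalIdeal R ∈ (Ideal.span (s : Set R)).minimalPrimes := by
    refine ⟨⟨inferInstance, ?_⟩, ?_⟩
    · rw [Ideal.span_le]
      intro p hp
      simp only [s, Finset.coe_insert, Finset.coe_singleton, Set.mem_insert_iff,
        Set.mem_singleton_iff] at hp
      rw [SetLike.mem_coe, mem_max]
      rcases hp with rfl | rfl
      · show constantCoeff (X 0) = 0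
        simp
      · show constantCoeff (X 1) = 0
        simp
    · rintro P ⟨hP, hsP⟩ _
      have e1 : mk' (X 0) (X 0) hZ ∈ P := hsP (Ideal.subset_span (by simp [s]))
      have e2 : mk' (X 1) 0 (hX 1) ∈ P := hsP (Ideal.subset_span (by simp [s]))
      have e3 : mk' (X 0) 0 (hX 0) ∈ P := by
        have : mk' (X 0) 0 (hX 0) ^ 2 ∈ P := by
          have h : mk' (X 0) 0 (hX 0) ^ 2 = mk' (X 0) (X 0) hZ * mk' (X 0) 0 (hX 0) := by
            rw [pow_two]
            apply ext'
            · rfl
            · show (0 : B) * 0 = X 0 * 0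
              simp
          rw [h]
          exact P.mul_mem_right _ e1
        exact hP.mem_of_pow_mem 2 this
      have e4 : mk' 0 (X 0) hY ∈ P := by
        have h : mk' 0 (X 0) hY = mk' (X 0) (X 0) hZ - mk' (X 0) 0 (hX 0) := by
          apply ext'
          · show (0 : A) = X 0 - X 0
            simp
          · show (X 0 : B) = X 0 - 0
            simp
        rw [h]
        exact P.sub_mem e1 e3
      intro p hp
      rw [← J_one] at hp
      obtain ⟨c, hc, hc2⟩ := decomp 0 (prA p) hp.1
      obtain ⟨d, hd, hd2⟩ := decomp 0 (prB p) hp.2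
      have h : p = mk' (X 0) 0 (hX 0) * mk' (c 0) (C (constantCoeff (c 0))) (by simp) +
          mk' (X 1) 0 (hX 1) * mk' (c 1) (C (constantCoeff (c 1))) (by simp) +
          mk' 0 (X 0) hY * mk' (C (constantCoeff (d 0))) (d 0) (by simp) := by
        apply ext'
        · rw [hc2, Fin.sum_univ_two]
          show X 0 * c 0 + X 1 * c 1 = X 0 * c 0 + X 1 * c 1 + 0 * _
          simp
        · rw [hd2, Fin.sum_univ_one]
          show X 0 * d 0 = 0 * _ + 0 * _ + X 0 * d 0
          simp
      rw [h]
      exact P.add_mem (P.add_mem (P.mul_mem_right _ e3) (P.mul_mem_right _ e2))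
        (P.mul_mem_right _ e4)
  have h2 := Ideal.height_le_card_of_mem_minimalPrimes_span_finset h1
  have h3 : s.card ≤ 2 := Finset.card_le_two
  have h4 : (IsLocalRing.maximalIdeal R).height ≤ 2 := h2.trans (by exact_mod_cast h3)
  exact WithBot.coe_le_coe.mpr h4

/-- the leading coefficients of a pair of order at least `n` -/
noncomputable def lead (n : ℕ) (p : R) : (Fin (n + 1) → ℚ) × ℚ :=
  (fun i => coeff (Finsupp.single 0 (i : ℕ) + Finsupp.single 1 (n - (i : ℕ))) (prA p),
    coeff (Finsupp.single 0 n) (prB p))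

lemma deg_aux {n : ℕ} (i : Fin (n + 1)) :
    Finsupp.degree (Finsupp.single (0 : Fin 2) (i : ℕ) + Finsupp.single 1 (n - (i : ℕ))) = n := by
  rw [map_add, Finsupp.degree_single, Finsupp.degree_single]
  have := i.2
  omega

lemma coeff_mul_of_order {σ : Type} {n : ℕ} (r a : MvPowerSeries σ ℚ) (ha : (n : ℕ∞) ≤ a.order)
    (d : σ →₀ ℕ) (hd : Finsupp.degree d = n) :
    coeff d (r * a) = constantCoeff r * coeff d a := by
  classical
  have h1 : r * a = C (constantCoeff r) * a + (r - C (constantCoeff r)) * a := by ring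
  rw [h1, map_add, coeff_C_mul]
  have h2 : coeff d ((r - C (constantCoeff r)) * a) = 0 := by
    apply coeff_of_lt_order
    have h3 : 1 ≤ (r - C (constantCoeff r)).order := by
      rw [one_le_order_iff_constCoeff_eq_zero]
      simp
    have h4 := add_le_add h3 ha
    refine lt_of_lt_of_le ?_ (le_trans h4 le_order_mul)
    rw [hd]
    exact_mod_cast (by omega : n < 1 + n)
  rw [h2, add_zero]

lemma fin2_eq (d : Fin 2 →₀ ℕ) {n : ℕ} (hd : Finsupp.degree d = n) :
    d = Finsupp.single 0 (d 0) + Finsupp.single 1 (n - d 0) := by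
  have h1 : Finsupp.degree d = d 0 + d 1 := by
    rw [Finsupp.degree_eq_sum, Fin.sum_univ_two]
  ext i
  fin_cases i
  · simp
  · simp
    omega

lemma fin1_eq (d : Fin 1 →₀ ℕ) {n : ℕ} (hd : Finsupp.degree d = n) :
    d = Finsupp.single 0 n := by
  have h1 : Finsupp.degree d = d 0 := by
    rw [Finsupp.degree_eq_sum, Fin.sum_univ_one]
  ext
  simp
  omega

lemma lead_eq_zero_iff {n : ℕ} {p : R} (hp : p ∈ J n) : lead n p = 0 ↔ p ∈ J (n + 1) := by
  constructor
  · intro h
    constructor
    · apply nat_le_order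
      intro d hd
      rcases Nat.lt_succ_iff_lt_or_eq.mp hd with h1 | h1
      · exact coeff_of_lt_order (lt_of_lt_of_le (by exact_mod_cast h1) hp.1)
      · have h2 := congrFun (congrArg Prod.fst h) ⟨d 0, by
          have : Finsupp.degree d = d 0 + d 1 := by rw [Finsupp.degree_eq_sum, Fin.sum_univ_two]
          omega⟩
        rw [fin2_eq d h1]
        exact h2
    · apply nat_le_order
      intro d hd
      rcases Nat.lt_succ_iff_lt_or_eq.mp hd with h1 | h1
      · exact coeff_of_lt_order (lt_of_lt_of_le (by exact_mod_cast h1) hp.2)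
      · have h2 := congrArg Prod.snd h
        rw [fin1_eq d h1]
        exact h2
  · intro h
    ext i
    · apply coeff_of_lt_order
      refine lt_of_lt_of_le ?_ h.1
      rw [deg_aux]
      exact_mod_cast Nat.lt_succ_self n
    · apply coeff_of_lt_order
      refine lt_of_lt_of_le ?_ h.2
      rw [Finsupp.degree_single]
      exact_mod_cast Nat.lt_succ_self n


/-- residue field as a module -/
noncomputable local instance algQ : Algebra R ℚ := ct.toAlgebra

lemma smulQ (r : R) (q : ℚ) : r • q = ct r * q := rfl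

/-- the leading coefficients as a linear map -/
noncomputable def leadLin (n : ℕ) : J n →ₗ[R] (Fin (n + 1) → ℚ) × ℚ where
  toFun p := lead n p
  map_add' p q := by
    ext i
    · simp [lead]
    · simp [lead]
  map_smul' r p := by
    have hp := p.2
    ext i
    · show coeff _ (prA (r * (p : R))) = ct r * coeff _ (prA (p : R))
      rw [map_mul, coeff_mul_of_order _ _ hp.1 _ (deg_aux i)]
      rfl
    · show coeff _ (prB (r * (p : R))) = ct r * coeff _ (prB (p : R))
      rw [map_mul, coeff_mul_of_order _ _ hp.2 _ (Finsupp.degree_single _ _), ct_apply']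
      rfl

lemma leadLin_surjective {n : ℕ} (hn : 0 < n) : Function.Surjective (leadLin n) := by
  classical
  rintro ⟨c, c'⟩
  let a : A := fun d => if h : d 0 + d 1 = n then c ⟨d 0, by omega⟩ else 0
  let b : B := fun d => if d 0 = n then c' else 0
  have ha : (n : ℕ∞) ≤ a.order := by
    apply nat_le_order
    intro d hd
    rw [Finsupp.degree_eq_sum, Fin.sum_univ_two] at hd
    show (if h : d 0 + d 1 = n then c ⟨d 0, by omega⟩ else 0) = 0
    rw [dif_neg (by omega)]
  have hb : (n : ℕ∞) ≤ b.order := by
    apply nat_le_order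
    intro d hd
    rw [Finsupp.degree_eq_sum, Fin.sum_univ_one] at hd
    show (if d 0 = n then c' else 0) = 0
    rw [if_neg (by omega)]
  have hca : constantCoeff a = 0 := by
    rw [← one_le_order_iff_constCoeff_eq_zero]
    exact le_trans (by exact_mod_cast hn) ha
  have hcb : constantCoeff b = 0 := by
    rw [← one_le_order_iff_constCoeff_eq_zero]
    exact le_trans (by exact_mod_cast hn) hb
  refine ⟨⟨mk' a b (hca.trans hcb.symm), ⟨ha, hb⟩⟩, ?_⟩
  ext i
  · show a (Finsupp.single 0 (i : ℕ) + Finsupp.single 1 (n - (i : ℕ))) = c i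
    have hi := i.2
    show (if h : (Finsupp.single 0 (i : ℕ) + Finsupp.single 1 (n - (i : ℕ)) : Fin 2 →₀ ℕ) 0 +
      (Finsupp.single 0 (i : ℕ) + Finsupp.single 1 (n - (i : ℕ)) : Fin 2 →₀ ℕ) 1 = n then
        c ⟨(Finsupp.single 0 (i : ℕ) + Finsupp.single 1 (n - (i : ℕ)) : Fin 2 →₀ ℕ) 0, by omega⟩
        else 0) = c i
    rw [dif_pos (by simp; omega)]
    congr 1
    apply Fin.ext
    simp
  · show b (Finsupp.single 0 n) = c'
    show (if (Finsupp.single 0 n : Fin 1 →₀ ℕ) 0 = n then c' else 0) = c'
    rw [if_pos (by simp)]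

lemma length_lead (n : ℕ) : Module.length R ((Fin (n + 1) → ℚ) × ℚ) = (n + 2 : ℕ) := by
  have h : IsScalarTower R ℚ ((Fin (n + 1) → ℚ) × ℚ) := inferInstance
  rw [Module.length_eq_of_surjective (R := ℚ) (S := R) ct_surjective]
  rw [Module.length_prod, Module.length_pi_of_fintype]
  simp
  norm_num [add_assoc]

lemma mem_ker_leadLin {n : ℕ} (p : J n) : p ∈ LinearMap.ker (leadLin n) ↔ (p : R) ∈ J (n + 1) := by
  rw [LinearMap.mem_ker]
  exact lead_eq_zero_iff p.2

lemma length_step {n : ℕ} (hn : 0 < n) :
    Module.length R (R ⧸ J (n + 1)) = Module.length R (R ⧸ J n) + (n + 2 : ℕ) := by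
  let f : (J n ⧸ LinearMap.ker (leadLin n)) →ₗ[R] R ⧸ J (n + 1) :=
    Submodule.mapQ _ _ (Submodule.subtype (J n)) (by
      intro p hp
      exact (mem_ker_leadLin p).mp hp)
  let g : (R ⧸ J (n + 1)) →ₗ[R] R ⧸ J n := Submodule.factor (J_anti (Nat.le_succ n))
  have hf : Function.Injective f := by
    rw [injective_iff_map_eq_zero]
    intro x hx
    obtain ⟨p, rfl⟩ := Submodule.mkQ_surjective _ x
    rw [Submodule.mkQ_apply, Submodule.Quotient.mk_eq_zero, mem_ker_leadLin]
    have : (Submodule.Quotient.mk (p : R) : R ⧸ J (n + 1)) = 0 := hx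
    rwa [Submodule.Quotient.mk_eq_zero] at this
  have hg : Function.Surjective g := Submodule.factor_surjective _
  have hfg : Function.Exact f g := by
    intro x
    obtain ⟨r, rfl⟩ := Submodule.mkQ_surjective _ x
    constructor
    · intro h
      have h1 : (Submodule.Quotient.mk r : R ⧸ J n) = 0 := h
      rw [Submodule.Quotient.mk_eq_zero] at h1
      exact ⟨Submodule.Quotient.mk ⟨r, h1⟩, rfl⟩
    · rintro ⟨y, hy⟩
      obtain ⟨p, rfl⟩ := Submodule.mkQ_surjective _ y
      rw [← hy]
      show (Submodule.Quotient.mk (p : R) : R ⧸ J n) = 0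
      rw [Submodule.Quotient.mk_eq_zero]
      exact p.2
  rw [Module.length_eq_add_of_exact f g hf hg hfg,
    ((leadLin n).quotKerEquivOfSurjective (leadLin_surjective hn)).length_eq, length_lead, add_comm]

lemma length_one : Module.length R (R ⧸ J 1) = 1 := by
  rw [J_one, Module.length_eq_one_iff, isSimpleModule_iff_isCoatom]
  exact Ideal.isMaximal_def.mp inferInstance

lemma length_J (n : ℕ) : ∃ m : ℕ, Module.length R (R ⧸ J (n + 1)) = (m : ℕ∞) ∧
    2 * m = n * n + 5 * n + 2 := by
  induction n with
  | zero => exact ⟨1, by rw [zero_add, length_one]; rfl, rfl⟩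
  | succ n ih =>
    obtain ⟨m, hm, hm2⟩ := ih
    refine ⟨m + (n + 3), ?_, by linarith [hm2]⟩
    rw [length_step (Nat.succ_pos n), hm]
    push_cast
    ring

/-- the integral closure of a power of the maximal ideal is that power -/
lemma integral_iff (n : ℕ) (x : R) :
    (∃ k : ℕ, 0 < k ∧ ∃ a : ℕ → R, (∀ j, a j ∈ (IsLocalRing.maximalIdeal R ^ n) ^ j) ∧
      x ^ k + ∑ j ∈ Finset.range k, a (k - j) * x ^ j = 0) ↔ x ∈ J n := by
  constructor
  · rintro ⟨k, hk, a, ha, h⟩
    have hmain : ∀ {σ : Type} (f : R →+* MvPowerSeries σ ℚ),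
        (∀ (j : ℕ) (y : R), y ∈ J j → (j : ℕ∞) ≤ (f y).order) → (n : ℕ∞) ≤ (f x).order := by
      intro σ f hf
      by_contra hlt
      push Not at hlt
      obtain ⟨v, hv⟩ : ∃ v : ℕ, (f x).order = v := by
        refine ⟨(f x).order.toNat, ?_⟩
        rw [ENat.natCast_toNat]
        exact ne_top_of_lt hlt
      rw [hv] at hlt
      have hvn : v < n := by exact_mod_cast hlt
      have h1 : (f x) ^ k = - ∑ j ∈ Finset.range k, f (a (k - j)) * (f x) ^ j := by
        have := congrArg f h
        rw [map_add, map_pow, map_sum, map_zero] at this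
        rw [eq_neg_iff_add_eq_zero, ← this]
        congr 1
        exact Finset.sum_congr rfl (fun j _ => by rw [map_mul, map_pow])
      have h2 : ((k * v + 1 : ℕ) : ℕ∞) ≤ ((f x) ^ k).order := by
        rw [h1, order_neg]
        have h3 : ∀ (s : Finset ℕ), s ⊆ Finset.range k →
            ((k * v + 1 : ℕ) : ℕ∞) ≤ (∑ j ∈ s, f (a (k - j)) * (f x) ^ j).order := by
          intro s
          induction s using Finset.induction_on with
          | empty => intro _; rw [Finset.sum_empty, order_zero]; exact le_top
          | insert j s hj ih =>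
            intro hs
            rw [Finset.sum_insert hj]
            refine le_trans (le_min ?_ (ih ?_)) min_order_le_add
            · have hjk : j < k := Finset.mem_range.mp (hs (Finset.mem_insert_self _ _))
              rw [order_mul, order_pow', hv]
              have h4 := ha (k - j)
              rw [← pow_mul, max_pow] at h4
              have h5 := hf _ _ h4
              refine le_trans ?_ (add_le_add_left h5 _)
              have h6 : k * v + 1 ≤ n * (k - j) + j * v := by
                obtain ⟨t, rfl⟩ : ∃ t, k = j + t := ⟨k - j, by omega⟩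
                have ht : 0 < t := by omega
                rw [Nat.add_sub_cancel_left, add_mul]
                have h7 : t * v + t ≤ n * t := by
                  calc t * v + t = t * (v + 1) := by ring
                    _ ≤ t * n := Nat.mul_le_mul_left _ hvn
                    _ = n * t := mul_comm _ _
                omega
              exact_mod_cast h6
            · exact (Finset.subset_insert _ _).trans hs
        exact h3 _ (Finset.Subset.refl _)
      rw [order_pow', hv] at h2
      have h8 : k * v + 1 ≤ k * v := by exact_mod_cast h2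
      omega
    exact ⟨hmain prA (fun j y hy => hy.1), hmain prB (fun j y hy => hy.2)⟩
  · intro hx
    refine ⟨1, Nat.one_pos, fun j => if j = 1 then -x else 0, ?_, ?_⟩
    · intro j
      show (if j = 1 then -x else 0) ∈ _
      split_ifs with h
      · subst h
        rw [pow_one, max_pow]
        exact (J n).neg_mem hx
      · exact Ideal.zero_mem _
    · simp

end Pool.Agent.Y234.PL
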